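import Mathlib
import Pool.Agent.Lib.MP_50ef00_gt.NegC

/-!
# MP_50ef00_gt: module NC0, the disc without its last triangle collapses (helper1)
-/

set_option autoImplicit false

namespace Pool.Agent.Lib.MP_50ef00_gt.H1

open Pool.Agent.Lib.MP_50ef00_gt

theorem mem_simplex (s x : Finset ℕ) : x ∈ simplex s ↔ x ⊆ s ∧ x.Nonempty := by
  simp [simplex]

theorem isComplex_simplex (s : Finset ℕ) : IsComplex (simplex s) := by
  intro x hx
  rw [mem_simplex] at hx
  exact ⟨hx.2, fun t ht htn => (mem_simplex s t).2 ⟨ht.trans hx.1, htn⟩⟩

theorem isComplex_union {K L : Finset (Finset ℕ)} (hK : IsComplex K) (hL : IsComplex L) :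
    IsComplex (K ∪ L) := by
  intro x hx
  rcases Finset.mem_union.1 hx with h | h
  · exact ⟨(hK x h).1, fun t ht htn => Finset.mem_union_left _ ((hK x h).2 t ht htn)⟩
  · exact ⟨(hL x h).1, fun t ht htn => Finset.mem_union_right _ ((hL x h).2 t ht htn)⟩

theorem isComplex_biUnion {ι : Type} [DecidableEq ι] (I : Finset ι) (f : ι → Finset (Finset ℕ))
    (h : ∀ i ∈ I, IsComplex (f i)) : IsComplex (I.biUnion f) := by
  intro x hx
  obtain ⟨i, hi, hx⟩ := Finset.mem_biUnion.1 hx
  exact ⟨(h i hi x hx).1, fun t ht htn =>
    Finset.mem_biUnion.2 ⟨i, hi, (h i hi x hx).2 t ht htn⟩⟩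

/-- an elementary expansion -/
theorem expand {K : Finset (Finset ℕ)} (hK : IsComplex K) (s : Finset ℕ) (a : ℕ) (ha : a ∉ s)
    (hs : s.Nonempty) (hsK : s ∉ K) (hf : ∀ v ∈ s, insert a (s.erase v) ∈ K) :
    CollapseStep (K ∪ simplex (insert a s)) K := by
  have hcx : IsComplex (K ∪ simplex (insert a s)) := isComplex_union hK (isComplex_simplex _)
  have hst : s ≠ insert a s := by
    intro h
    exact ha (h ▸ Finset.mem_insert_self a s)
  have htK : insert a s ∉ K := fun h => hsK ((hK _ h).2 s (Finset.subset_insert a s) hs)
  -- all other faces are in K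
  have hface : ∀ u : Finset ℕ, u ⊆ insert a s → u.Nonempty → u ≠ s → u ≠ insert a s → u ∈ K := by
    intro u hu hun hus hut
    by_cases hsu : s ⊆ u
    · exfalso
      by_cases hau : a ∈ u
      · exact hut (Finset.Subset.antisymm hu (Finset.insert_subset hau hsu))
      · refine hus (Finset.Subset.antisymm (fun v hv => ?_) hsu)
        rcases Finset.mem_insert.1 (hu hv) with rfl | h
        · exact absurd hv hau
        · exact h
    · obtain ⟨v, hvs, hvu⟩ := Finset.not_subset.1 hsu
      refine (hK _ (hf v hvs)).2 u (fun x hx => ?_) hun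
      rcases Finset.mem_insert.1 (hu hx) with rfl | h
      · exact Finset.mem_insert_self _ _
      · refine Finset.mem_insert_of_mem (Finset.mem_erase.2 ⟨?_, h⟩)
        rintro rfl
        exact hvu hx
  refine ⟨hcx, hK, s, insert a s, ?_, ?_, Finset.subset_insert a s, ?_, ?_, ?_⟩
  · exact Finset.mem_union_right _ ((mem_simplex _ _).2 ⟨Finset.subset_insert a s, hs⟩)
  · exact Finset.mem_union_right _ ((mem_simplex _ _).2
      ⟨Finset.Subset.refl _, Finset.insert_nonempty a s⟩)
  · rw [Finset.card_insert_of_notMem ha]
  · intro u hu hsu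
    rcases Finset.mem_union.1 hu with h | h
    · exact absurd ((hK u h).2 s hsu hs) hsK
    · rw [mem_simplex] at h
      by_contra hne
      push Not at hne
      have := hface u h.1 h.2 hne.1 hne.2
      exact hsK ((hK u this).2 s hsu hs)
  · ext u
    rw [Finset.mem_erase, Finset.mem_erase, Finset.mem_union, mem_simplex]
    constructor
    · intro h
      refine ⟨?_, ?_, Or.inl h⟩
      · rintro rfl
        exact htK h
      · rintro rfl
        exact hsK h
    · rintro ⟨h1, h2, h3 | h3⟩
      · exact h3
      · exact hface u h3.1 h3.2 h2 h1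

/-- the partial disc -/
def part (L : Finset (Finset ℕ)) (n N : ℕ) (p : ℕ → ℕ) (i : ℕ) : Finset (Finset ℕ) :=
  L ∪ simplex {N, 0} ∪ (Finset.range i).biUnion (fun i =>
    simplex {ring n N i, p i, p (i + 1)} ∪ simplex {ring n N i, p (i + 1), ring n N (i + 1)} ∪
      simplex {N, ring n N i, ring n N (i + 1)})

theorem mem_part (L : Finset (Finset ℕ)) (n N : ℕ) (p : ℕ → ℕ) (i : ℕ) (x : Finset ℕ) :
    x ∈ part L n N p i ↔ x ∈ L ∨ (x ⊆ {N, 0} ∧ x.Nonempty) ∨ ∃ j < i,
      (x ⊆ {ring n N j, p j, p (j + 1)} ∨ x ⊆ {ring n N j, p (j + 1), ring n N (j + 1)} ∨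
        x ⊆ {N, ring n N j, ring n N (j + 1)}) ∧ x.Nonempty := by
  simp only [part, Finset.mem_union, Finset.mem_biUnion, mem_simplex, Finset.mem_range]
  constructor
  · rintro ((h | h) | ⟨j, hj, (h | h) | h⟩)
    · exact Or.inl h
    · exact Or.inr (Or.inl h)
    · exact Or.inr (Or.inr ⟨j, hj, Or.inl h.1, h.2⟩)
    · exact Or.inr (Or.inr ⟨j, hj, Or.inr (Or.inl h.1), h.2⟩)
    · exact Or.inr (Or.inr ⟨j, hj, Or.inr (Or.inr h.1), h.2⟩)
  · rintro (h | h | ⟨j, hj, h | h | h, hn⟩)
    · exact Or.inl (Or.inl h)
    · exact Or.inl (Or.inr h)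
    · exact Or.inr ⟨j, hj, Or.inl (Or.inl ⟨h, hn⟩)⟩
    · exact Or.inr ⟨j, hj, Or.inl (Or.inr ⟨h, hn⟩)⟩
    · exact Or.inr ⟨j, hj, Or.inr ⟨h, hn⟩⟩

theorem isComplex_part {L : Finset (Finset ℕ)} (hL : IsComplex L) (n N : ℕ) (p : ℕ → ℕ) (i : ℕ) :
    IsComplex (part L n N p i) := by
  refine isComplex_union (isComplex_union hL (isComplex_simplex _))
    (isComplex_biUnion _ _ fun j _ => ?_)
  exact isComplex_union (isComplex_union (isComplex_simplex _) (isComplex_simplex _))
    (isComplex_simplex _)

theorem part_succ (L : Finset (Finset ℕ)) (n N : ℕ) (p : ℕ → ℕ) (i : ℕ) :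
    part L n N p (i + 1) = part L n N p i ∪ simplex {ring n N i, p i, p (i + 1)} ∪
      simplex {ring n N i, p (i + 1), ring n N (i + 1)} ∪
      simplex {N, ring n N i, ring n N (i + 1)} := by
  ext x
  simp only [part, Finset.range_add_one, Finset.biUnion_insert, Finset.mem_union]
  tauto

section
variable {L : Finset (Finset ℕ)} {n N : ℕ} {p : ℕ → ℕ}

theorem r_zero : ring n N 0 = 0 := by simp [ring]

theorem r_n : ring n N n = 0 := by simp [ring]

theorem r_mid {i : ℕ} (h : 0 < i) (h' : i < n) : ring n N i = N + i := by
  have h1 : i ≠ 0 := by omega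
  have h2 : i ≠ n := by omega
  simp [ring, h1, h2]

theorem p_lt (h : GoodPath L n N p) {i : ℕ} (hi : i ≤ n) : p i < N := by
  rcases Nat.lt_or_ge i n with h1 | h1
  · exact h.lt _ (h.edge i h1) _ (by simp)
  · have : i = n := by omega
    subst this
    rw [h.pn]
    have h2 := h.lt _ (h.edge 0 (by have := h.n3; omega)) (p 0) (by simp)
    rw [h.p0] at h2
    exact h2

theorem N_pos (h : GoodPath L n N p) : 0 < N := by
  have := p_lt h (Nat.zero_le n)
  omega

/-- a pair with the new vertex `N + i`, `i ≥ 1`, in the partial disc number `i` -/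
theorem pair_part (h : GoodPath L n N p) {i : ℕ} (hi : 1 ≤ i) (hin : i ≤ n - 1) (v : ℕ)
    (hv : ({N + i, v} : Finset ℕ) ∈ part L n N p i) :
    v = N + i ∨ v = p i ∨ v = N ∨ (v = 0 ∧ i = 1) ∨ (v = N + (i - 1) ∧ 2 ≤ i) := by
  have h3 := h.n3
  have hN := N_pos h
  rw [mem_part] at hv
  rcases hv with hv | ⟨hv, _⟩ | ⟨j, hj, hv, _⟩
  · have := h.lt _ hv (N + i) (by simp)
    omega
  · simp only [Finset.insert_subset_iff, Finset.singleton_subset_iff, Finset.mem_insert,
      Finset.mem_singleton] at hv
    omega
  · have hpj := p_lt h (i := j) (by omega)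
    have hpj1 := p_lt h (i := j + 1) (by omega)
    have hr1 : ring n N (j + 1) = N + (j + 1) := r_mid (by omega) (by omega)
    have hr0 : ring n N j = 0 ∧ j = 0 ∨ ring n N j = N + j ∧ 0 < j := by
      rcases Nat.eq_zero_or_pos j with h0 | h0
      · left; exact ⟨by rw [h0]; exact r_zero, h0⟩
      · right; exact ⟨r_mid h0 (by omega), h0⟩
    simp only [Finset.insert_subset_iff, Finset.singleton_subset_iff, Finset.mem_insert,
      Finset.mem_singleton, hr1] at hv
    by_cases hji : j + 1 = i
    · subst hji
      omega
    · omega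

/-- vertices of the partial disc number `i` -/
theorem vert_part (h : GoodPath L n N p) {i : ℕ} (hin : i ≤ n - 1) (x : Finset ℕ)
    (hx : x ∈ part L n N p i) (v : ℕ) (hv : v ∈ x) : v ≤ N + i := by
  have h3 := h.n3
  have hN := N_pos h
  rw [mem_part] at hx
  rcases hx with hx | ⟨hx, _⟩ | ⟨j, hj, hx, _⟩
  · have := h.lt _ hx v hv
    omega
  · have := hx hv
    simp only [Finset.mem_insert, Finset.mem_singleton] at this
    omega
  · have hpj := p_lt h (i := j) (by omega)
    have hpj1 := p_lt h (i := j + 1) (by omega)
    have hr1 : ring n N (j + 1) = N + (j + 1) := r_mid (by omega) (by omega)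
    have hr0 : ring n N j = 0 ∧ j = 0 ∨ ring n N j = N + j ∧ 0 < j := by
      rcases Nat.eq_zero_or_pos j with h0 | h0
      · left; exact ⟨by rw [h0]; exact r_zero, h0⟩
      · right; exact ⟨r_mid h0 (by omega), h0⟩
    rcases hx with hx | hx | hx <;>
    · have := hx hv
      simp only [Finset.mem_insert, Finset.mem_singleton] at this
      omega

/-- adding the first triangle of step `i` -/
theorem step_T (h : GoodPath L n N p) {i : ℕ} (hi : 1 ≤ i) (hin : i ≤ n - 1)
    (hpi : p (i + 1) ≠ 0 ∨ 2 ≤ i) :
    CollapseStep (part L n N p i ∪ simplex {ring n N i, p i, p (i + 1)}) (part L n N p i) := by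
  have h3 := h.n3
  have hN := N_pos h
  have hri : ring n N i = N + i := r_mid (by omega) (by omega)
  have hpi0 := p_lt h (i := i) (by omega)
  have hpi1 := p_lt h (i := i + 1) (by omega)
  have hne := h.ne i (by omega)
  have e : ({ring n N i, p i, p (i + 1)} : Finset ℕ) = insert (p i) {N + i, p (i + 1)} := by
    rw [hri, Finset.insert_comm]
  rw [e]
  have hK := isComplex_part h.cx n N p i
  refine expand hK _ _ ?_ (by simp) ?_ ?_
  · simp only [Finset.mem_insert, Finset.mem_singleton]
    omega
  · intro hmem
    have := pair_part h hi hin _ hmem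
    omega
  · intro v hv
    simp only [Finset.mem_insert, Finset.mem_singleton] at hv
    rcases hv with rfl | rfl
    · -- {p i, p (i+1)} ∈ L
      have e2 : (insert (p i) (({N + i, p (i + 1)} : Finset ℕ).erase (N + i)))
          = ({p i, p (i + 1)} : Finset ℕ) := by
        ext x
        simp only [Finset.mem_insert, Finset.mem_erase, Finset.mem_singleton]
        omega
      rw [e2, mem_part]
      exact Or.inl (h.edge i (by omega))
    · -- {p i, r i}
      have e2 : (insert (p i) (({N + i, p (i + 1)} : Finset ℕ).erase (p (i + 1))))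
          = ({p i, N + i} : Finset ℕ) := by
        ext x
        simp only [Finset.mem_insert, Finset.mem_erase, Finset.mem_singleton]
        omega
      rw [e2, mem_part]
      refine Or.inr (Or.inr ⟨i - 1, by omega, Or.inr (Or.inl ?_), by simp⟩)
      have e3 : i - 1 + 1 = i := by omega
      rw [e3, hri]
      intro x hx
      simp only [Finset.mem_insert, Finset.mem_singleton] at hx ⊢
      omega

/-- step `i` -/
theorem step (h : GoodPath L n N p) {i : ℕ} (hin : i < n - 1) :
    Relation.ReflTransGen CollapseStep (part L n N p (i + 1)) (part L n N p i) := by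
  have h3 := h.n3
  have hN := N_pos h
  have hr1 : ring n N (i + 1) = N + (i + 1) := r_mid (by omega) (by omega)
  have hpi0 := p_lt h (i := i) (by omega)
  have hpi1 := p_lt h (i := i + 1) (by omega)
  have hne := h.ne i (by omega)
  have hr0 : ring n N i = 0 ∧ i = 0 ∨ ring n N i = N + i ∧ 0 < i := by
    rcases Nat.eq_zero_or_pos i with h0 | h0
    · left; exact ⟨by rw [h0]; exact r_zero, h0⟩
    · right; exact ⟨r_mid h0 (by omega), h0⟩
  have hKi := isComplex_part h.cx n N p i
  set r := ring n N i with hr
  -- step T
  have sT : Relation.ReflTransGen CollapseStep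
      (part L n N p i ∪ simplex {r, p i, p (i + 1)}) (part L n N p i) := by
    rcases Nat.eq_zero_or_pos i with h0 | h0
    · have e : part L n N p i ∪ simplex {r, p i, p (i + 1)} = part L n N p i := by
        rw [Finset.union_eq_left]
        intro x hx
        rw [mem_simplex] at hx
        rw [mem_part]
        left
        refine (h.cx _ (h.edge i (by omega))).2 x ?_ hx.2
        intro y hy
        have := hx.1 hy
        have hp0 := h.p0
        subst h0
        simp only [Finset.mem_insert, Finset.mem_singleton] at this ⊢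
        omega
      rw [e]
    · refine Relation.ReflTransGen.single (step_T h h0 (by omega) ?_)
      rcases Nat.lt_or_ge i 2 with h2 | h2
      · left
        have : i = 1 := by omega
        subst this
        exact h.h2
      · right; exact h2
  set K1 := part L n N p i ∪ simplex {r, p i, p (i + 1)} with hK1
  have hK1c : IsComplex K1 := isComplex_union hKi (isComplex_simplex _)
  have hK1v : ∀ x ∈ K1, ∀ v ∈ x, v ≤ N + i := by
    intro x hx v hv
    rcases Finset.mem_union.1 hx with hx | hx
    · exact vert_part h (by omega) x hx v hv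
    · rw [mem_simplex] at hx
      have := hx.1 hv
      simp only [Finset.mem_insert, Finset.mem_singleton] at this
      omega
  -- memberships in K1
  have hrp : ({r, p (i + 1)} : Finset ℕ) ∈ K1 := by
    refine Finset.mem_union_right _ ((mem_simplex _ _).2 ⟨?_, by simp⟩)
    intro x hx
    simp only [Finset.mem_insert, Finset.mem_singleton] at hx ⊢
    omega
  have hNr : ({N, r} : Finset ℕ) ∈ K1 := by
    refine Finset.mem_union_left _ ((mem_part _ _ _ _ _ _).2 ?_)
    rcases hr0 with ⟨h1, h2⟩ | ⟨h1, h2⟩
    · right; left
      rw [h1]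
      exact ⟨Finset.Subset.refl _, by simp⟩
    · right; right
      refine ⟨i - 1, by omega, Or.inr (Or.inr ?_), by simp⟩
      have e3 : i - 1 + 1 = i := by omega
      rw [e3, ← hr]
      intro x hx
      simp only [Finset.mem_insert, Finset.mem_singleton] at hx ⊢
      omega
  have hp1 : ({p (i + 1)} : Finset ℕ) ∈ K1 := (hK1c _ hrp).2 _ (by simp) (by simp)
  -- the edge {r (i+1), p (i+1)}
  set K2 := K1 ∪ simplex {p (i + 1), N + (i + 1)} with hK2
  have hK2c : IsComplex K2 := isComplex_union hK1c (isComplex_simplex _)
  have s2 : CollapseStep K2 K1 := by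
    rw [hK2]
    refine expand hK1c {N + (i + 1)} (p (i + 1)) ?_ (by simp) ?_ ?_
    · simp only [Finset.mem_singleton]; omega
    · intro hmem
      have := hK1v _ hmem (N + (i + 1)) (by simp)
      omega
    · intro v hv
      have : v = N + (i + 1) := by simpa using hv
      subst this
      have e2 : (insert (p (i + 1)) (({N + (i + 1)} : Finset ℕ).erase (N + (i + 1))))
          = ({p (i + 1)} : Finset ℕ) := by
        ext x
        simp
      rw [e2]
      exact hp1
  have hK2m : ∀ x ∈ K2, N + (i + 1) ∈ x → x ⊆ {p (i + 1), N + (i + 1)} := by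
    intro x hx hv
    rcases Finset.mem_union.1 hx with hx | hx
    · have := hK1v x hx _ hv
      omega
    · exact ((mem_simplex _ _).1 hx).1
  -- the triangle S
  set K3 := K2 ∪ simplex {p (i + 1), r, N + (i + 1)} with hK3
  have hK3c : IsComplex K3 := isComplex_union hK2c (isComplex_simplex _)
  have hrne : r ≠ p (i + 1) := by
    rcases hr0 with ⟨h1, h2⟩ | ⟨h1, h2⟩
    · have hh := h.h1
      subst h2
      rw [h1]
      exact fun h' => hh h'.symm
    · omega
  have s3 : CollapseStep K3 K2 := by
    rw [hK3]
    refine expand hK2c {r, N + (i + 1)} (p (i + 1)) ?_ (by simp) ?_ ?_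
    · simp only [Finset.mem_insert, Finset.mem_singleton]; omega
    · intro hmem
      have := hK2m _ hmem (by simp)
      have := this (Finset.mem_insert_self r _)
      simp only [Finset.mem_insert, Finset.mem_singleton] at this
      omega
    · intro v hv
      simp only [Finset.mem_insert, Finset.mem_singleton] at hv
      rcases hv with rfl | rfl
      · have e2 : (insert (p (i + 1)) (({r, N + (i + 1)} : Finset ℕ).erase r))
            = ({p (i + 1), N + (i + 1)} : Finset ℕ) := by
          ext x
          simp only [Finset.mem_insert, Finset.mem_erase, Finset.mem_singleton]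
          omega
        rw [e2]
        exact Finset.mem_union_right _ ((mem_simplex _ _).2 ⟨Finset.Subset.refl _, by simp⟩)
      · have e2 : (insert (p (i + 1)) (({r, N + (i + 1)} : Finset ℕ).erase (N + (i + 1))))
            = ({r, p (i + 1)} : Finset ℕ) := by
          ext x
          simp only [Finset.mem_insert, Finset.mem_erase, Finset.mem_singleton]
          omega
        rw [e2]
        exact Finset.mem_union_left _ hrp
  have hK3m : ∀ x ∈ K3, N + (i + 1) ∈ x → x ⊆ {p (i + 1), r, N + (i + 1)} := by
    intro x hx hv
    rcases Finset.mem_union.1 hx with hx | hx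
    · refine (hK2m x hx hv).trans ?_
      intro y hy
      simp only [Finset.mem_insert, Finset.mem_singleton] at hy ⊢
      omega
    · exact ((mem_simplex _ _).1 hx).1
  -- the triangle C
  have s4 : CollapseStep (K3 ∪ simplex {r, N, N + (i + 1)}) K3 := by
    refine expand hK3c {N, N + (i + 1)} r ?_ (by simp) ?_ ?_
    · simp only [Finset.mem_insert, Finset.mem_singleton]; omega
    · intro hmem
      have := hK3m _ hmem (by simp)
      have := this (Finset.mem_insert_self N _)
      simp only [Finset.mem_insert, Finset.mem_singleton] at this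
      omega
    · intro v hv
      simp only [Finset.mem_insert, Finset.mem_singleton] at hv
      rcases hv with rfl | rfl
      · have e2 : (insert r (({v, v + (i + 1)} : Finset ℕ).erase v))
            = ({r, v + (i + 1)} : Finset ℕ) := by
          ext x
          simp only [Finset.mem_insert, Finset.mem_erase, Finset.mem_singleton]
          omega
        rw [e2]
        refine Finset.mem_union_right _ ((mem_simplex _ _).2 ⟨?_, by simp⟩)
        intro y hy
        simp only [Finset.mem_insert, Finset.mem_singleton] at hy ⊢
        omega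
      · have e2 : (insert r (({N, N + (i + 1)} : Finset ℕ).erase (N + (i + 1))))
            = ({N, r} : Finset ℕ) := by
          ext x
          simp only [Finset.mem_insert, Finset.mem_erase, Finset.mem_singleton]
          omega
        rw [e2]
        exact Finset.mem_union_left _ (Finset.mem_union_left _ hNr)
  have efin : part L n N p (i + 1) = K3 ∪ simplex {r, N, N + (i + 1)} := by
    rw [part_succ, ← hr, ← hK1, hr1, hK3, hK2]
    have e1 : ({r, p (i + 1), N + (i + 1)} : Finset ℕ) = {p (i + 1), r, N + (i + 1)} := by
      rw [Finset.insert_comm]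
    have e2 : ({N, r, N + (i + 1)} : Finset ℕ) = {r, N, N + (i + 1)} := by
      rw [Finset.insert_comm]
    rw [e1, e2]
    congr 1
    ext x
    simp only [Finset.mem_union, mem_simplex]
    constructor
    · rintro (hx | hx)
      · exact Or.inl (Or.inl hx)
      · exact Or.inr hx
    · rintro ((hx | hx) | hx)
      · exact Or.inl hx
      · refine Or.inr ⟨hx.1.trans ?_, hx.2⟩
        intro y hy
        simp only [Finset.mem_insert, Finset.mem_singleton] at hy ⊢
        omega
      · exact Or.inr hx
  rw [efin]
  exact ((Relation.ReflTransGen.single s4).trans (Relation.ReflTransGen.single s3)).trans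
    ((Relation.ReflTransGen.single s2).trans sT)

theorem steps (h : GoodPath L n N p) : ∀ i ≤ n - 1,
    Relation.ReflTransGen CollapseStep (part L n N p i) L := by
  intro i
  induction i with
  | zero =>
    intro _
    have e : part L n N p 0 = L ∪ simplex (insert 0 {N}) := by
      ext x
      simp only [part, Finset.range_zero, Finset.biUnion_empty, Finset.union_empty]
      rw [Finset.pair_comm]
    rw [e]
    have hN := N_pos h
    refine Relation.ReflTransGen.single (expand h.cx {N} 0 ?_ (by simp) ?_ ?_)
    · simp only [Finset.mem_singleton]; omega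
    · intro hmem
      have := h.lt _ hmem N (by simp)
      omega
    · intro v hv
      have : v = N := by simpa using hv
      subst this
      have e2 : (insert 0 (({v} : Finset ℕ).erase v)) = ({0} : Finset ℕ) := by
        ext x
        simp
      rw [e2]
      have h3 := h.n3
      refine (h.cx _ (h.edge 0 (by omega))).2 _ ?_ (by simp)
      rw [h.p0]
      simp
  | succ i ih =>
    intro hi
    exact (step h (by omega)).trans (ih (by omega))

end

theorem nc0 : NC0Statement := by
  intro L n N p h
  have h3 := h.n3
  have hN := N_pos h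
  have hcx : IsComplex (L ∪ disc n p N) := by
    refine isComplex_union h.cx (isComplex_biUnion _ _ fun j _ => ?_)
    exact isComplex_union (isComplex_union (isComplex_simplex _) (isComplex_simplex _))
      (isComplex_simplex _)
  have hmem : ∀ x, x ∈ L ∪ disc n p N ↔ x ∈ L ∨ ∃ j < n,
      (x ⊆ {ring n N j, p j, p (j + 1)} ∨ x ⊆ {ring n N j, p (j + 1), ring n N (j + 1)} ∨
        x ⊆ {N, ring n N j, ring n N (j + 1)}) ∧ x.Nonempty := by
    intro x
    simp only [disc, Finset.mem_union, Finset.mem_biUnion, mem_simplex, Finset.mem_range]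
    constructor
    · rintro (h | ⟨j, hj, (h | h) | h⟩)
      · exact Or.inl h
      · exact Or.inr ⟨j, hj, Or.inl h.1, h.2⟩
      · exact Or.inr ⟨j, hj, Or.inr (Or.inl h.1), h.2⟩
      · exact Or.inr ⟨j, hj, Or.inr (Or.inr h.1), h.2⟩
    · rintro (h | ⟨j, hj, h | h | h, hn⟩)
      · exact Or.inl h
      · exact Or.inr ⟨j, hj, Or.inl (Or.inl ⟨h, hn⟩)⟩
      · exact Or.inr ⟨j, hj, Or.inl (Or.inr ⟨h, hn⟩)⟩
      · exact Or.inr ⟨j, hj, Or.inr ⟨h, hn⟩⟩
  have hrl : ring n N (n - 1) = N + (n - 1) := r_mid (by omega) (by omega)
  have en : n - 1 + 1 = n := by omega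
  have hpl := p_lt h (i := n - 1) (by omega)
  have htau : tau n N ∈ L ∪ disc n p N := by
    rw [hmem]
    refine Or.inr ⟨n - 1, by omega, Or.inr (Or.inr ?_), by simp [tau]⟩
    rw [en, r_n, hrl]
    exact Finset.Subset.refl _
  refine ⟨hcx, htau, ?_⟩
  have hstep : CollapseStep
      (part L n N p (n - 1) ∪ simplex {ring n N (n - 1), p (n - 1), p (n - 1 + 1)})
      (part L n N p (n - 1)) := step_T h (by omega) (by omega) (Or.inr (by omega))
  have efin : (L ∪ disc n p N).erase (tau n N)
      = part L n N p (n - 1) ∪ simplex {ring n N (n - 1), p (n - 1), p (n - 1 + 1)} := by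
    ext x
    rw [Finset.mem_erase, hmem, Finset.mem_union, mem_part, mem_simplex, en, h.pn, hrl]
    constructor
    · rintro ⟨hne, hx | ⟨j, hj, hx, hxn⟩⟩
      · exact Or.inl (Or.inl hx)
      · rcases Nat.lt_or_ge j (n - 1) with hj' | hj'
        · exact Or.inl (Or.inr (Or.inr ⟨j, hj', hx, hxn⟩))
        · have ej : j = n - 1 := by omega
          subst ej
          rw [en, hrl, r_n, h.pn] at hx
          rcases hx with hx | hx | hx
          · exact Or.inr ⟨hx, hxn⟩
          · refine Or.inr ⟨hx.trans ?_, hxn⟩
            intro y hy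
            simp only [Finset.mem_insert, Finset.mem_singleton] at hy ⊢
            omega
          · -- a proper face of the last triangle
            have hex : ∃ v ∈ tau n N, v ∉ x := by
              by_contra hcon
              push Not at hcon
              exact hne (Finset.Subset.antisymm hx hcon)
            obtain ⟨v, hv, hvx⟩ := hex
            have hmemx : ∀ y ∈ x, y = N ∨ y = N + (n - 1) ∨ y = 0 := by
              intro y hy
              simpa using hx hy
            have hyv : ∀ y ∈ x, y ≠ v := fun y hy hyv => hvx (hyv ▸ hy)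
            have hv' : v = N ∨ v = N + (n - 1) ∨ v = 0 := by simpa [tau] using hv
            rcases hv' with hv' | hv' | hv'
            · refine Or.inr ⟨fun y hy => ?_, hxn⟩
              have h1 := hmemx y hy
              have h2 := hyv y hy
              simp only [Finset.mem_insert, Finset.mem_singleton]
              omega
            · refine Or.inl (Or.inr (Or.inl ⟨fun y hy => ?_, hxn⟩))
              have h1 := hmemx y hy
              have h2 := hyv y hy
              simp only [Finset.mem_insert, Finset.mem_singleton]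
              omega
            · refine Or.inl (Or.inr (Or.inr ⟨n - 2, by omega, Or.inr (Or.inr fun y hy => ?_), hxn⟩))
              have h1 := hmemx y hy
              have h2 := hyv y hy
              have e2 : n - 2 + 1 = n - 1 := by omega
              rw [e2, hrl]
              simp only [Finset.mem_insert, Finset.mem_singleton]
              omega
    · have hr1 : ring n N 1 = N + 1 := r_mid (by omega) (by omega)
      rintro ((hx | ⟨hx, hxn⟩ | ⟨j, hj, hx, hxn⟩) | ⟨hx, hxn⟩)
      · refine ⟨?_, Or.inl hx⟩
        rintro rfl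
        have := h.lt _ hx N (by simp [tau])
        omega
      · refine ⟨?_, Or.inr ⟨0, by omega, Or.inr (Or.inr (hx.trans ?_)), hxn⟩⟩
        · rintro rfl
          have := hx (show N + (n - 1) ∈ tau n N by simp [tau])
          simp only [Finset.mem_insert, Finset.mem_singleton] at this
          omega
        · intro y hy
          rw [r_zero]
          simp only [Finset.mem_insert, Finset.mem_singleton] at hy ⊢
          omega
      · refine ⟨?_, Or.inr ⟨j, by omega, hx, hxn⟩⟩
        rintro rfl
        have hpj := p_lt h (i := j) (by omega)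
        have hpj1 := p_lt h (i := j + 1) (by omega)
        have hr1 : ring n N (j + 1) = N + (j + 1) := r_mid (by omega) (by omega)
        have hr0 : ring n N j = 0 ∧ j = 0 ∨ ring n N j = N + j ∧ 0 < j := by
          rcases Nat.eq_zero_or_pos j with h0 | h0
          · left; exact ⟨by rw [h0]; exact r_zero, h0⟩
          · right; exact ⟨r_mid h0 (by omega), h0⟩
        simp only [tau, Finset.insert_subset_iff, Finset.singleton_subset_iff, Finset.mem_insert,
          Finset.mem_singleton, hr1] at hx
        omega
      · refine ⟨?_, Or.inr ⟨n - 1, by omega, Or.inl ?_, hxn⟩⟩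
        · rintro rfl
          have := hx (show N ∈ tau n N by simp [tau])
          simp only [Finset.mem_insert, Finset.mem_singleton] at this
          omega
        · rw [hrl, en, h.pn]
          exact hx
  rw [efin]
  exact (Relation.ReflTransGen.single hstep).trans (steps h (n - 1) le_rfl)

end Pool.Agent.Lib.MP_50ef00_gt.H1
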