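import Mathlib
import Pool.Agent.Lib.MP_50ef00_gt.NegC

/-!
# MP_50ef00_gt: module NB2, invariance under renaming of the vertices (helper1)
-/

set_option autoImplicit false

namespace Pool.Agent.Lib.MP_50ef00_gt.H1

open Pool.Agent.Lib.MP_50ef00_gt H65 Matrix

section general
variable {I : Type*} [DecidableEq I]

/-- reindexing by a permutation of the cells -/
theorem isTorsOn_equiv {a b a' b' : Finset I} {D : I → I → ℂ} {r : ℂ} (φ : I ≃ I)
    (ha : ∀ x, x ∈ a ↔ φ x ∈ a') (hb : ∀ x, x ∈ b ↔ φ x ∈ b') :
    IsTorsOn a b (fun x y => D (φ x) (φ y)) r ↔ IsTorsOn a' b' D r := by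
  have h := isTors_reindex_iff (D₁ := res a' b' D) (D₀ := res b' a' D) (r := r)
    (φ.subtypeEquiv ha) (φ.subtypeEquiv hb)
  exact h

/-- diagonal base change -/
theorem isTorsOn_diag {a b : Finset I} {D E : I → I → ℂ} {r : ℂ} (c : I → ℂ)
    (hca : ∀ x ∈ a, ‖c x‖ = 1) (hcb : ∀ x ∈ b, ‖c x‖ = 1)
    (h1 : ∀ x ∈ a, ∀ y ∈ b, D x y * c y = c x * E x y)
    (h0 : ∀ x ∈ b, ∀ y ∈ a, D x y * c y = c x * E x y) :
    IsTorsOn a b D r ↔ IsTorsOn a b E r := by
  have hne : ∀ x : I, ‖c x‖ = 1 → c x ≠ 0 := by
    intro x hx h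
    rw [h, norm_zero] at hx
    exact zero_ne_one hx
  unfold IsTorsOn
  refine isTors_base_change_iff (G := Matrix.diagonal fun x : {i // i ∈ a} => c x)
    (G' := Matrix.diagonal fun x : {i // i ∈ a} => (c x)⁻¹)
    (H := Matrix.diagonal fun x : {i // i ∈ b} => c x)
    (H' := Matrix.diagonal fun x : {i // i ∈ b} => (c x)⁻¹) ?_ ?_ ?_ ?_ ?_ ?_ ?_ ?_
  · rw [diagonal_mul_diagonal, ← diagonal_one]
    congr 1
    funext x
    exact mul_inv_cancel₀ (hne _ (hca x x.2))
  · rw [diagonal_mul_diagonal, ← diagonal_one]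
    congr 1
    funext x
    exact inv_mul_cancel₀ (hne _ (hca x x.2))
  · rw [diagonal_mul_diagonal, ← diagonal_one]
    congr 1
    funext x
    exact mul_inv_cancel₀ (hne _ (hcb x x.2))
  · rw [diagonal_mul_diagonal, ← diagonal_one]
    congr 1
    funext x
    exact inv_mul_cancel₀ (hne _ (hcb x x.2))
  · rw [det_diagonal, norm_prod]
    exact Finset.prod_eq_one fun x _ => hca x x.2
  · rw [det_diagonal, norm_prod]
    exact Finset.prod_eq_one fun x _ => hcb x x.2
  · ext x y
    rw [mul_diagonal, diagonal_mul]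
    exact h1 x x.2 y y.2
  · ext x y
    rw [mul_diagonal, diagonal_mul]
    exact h0 x x.2 y y.2

end general

/-! ### signs -/

/-- sign of a pair -/
def tt (f : ℕ → ℕ) (a b : ℕ) : ℂ := if a < b ∧ f b < f a then -1 else 1

/-- sign of the reordering of `s` -/
def eps (f : ℕ → ℕ) (s : Finset ℕ) : ℂ := ∏ a ∈ s, ∏ b ∈ s, tt f a b

theorem norm_tt (f : ℕ → ℕ) (a b : ℕ) : ‖tt f a b‖ = 1 := by
  unfold tt
  split_ifs <;> simp

theorem norm_eps (f : ℕ → ℕ) (s : Finset ℕ) : ‖eps f s‖ = 1 := by
  rw [eps, norm_prod]
  refine Finset.prod_eq_one fun a _ => ?_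
  rw [norm_prod]
  exact Finset.prod_eq_one fun b _ => norm_tt f a b

theorem sgn_eq (s : Finset ℕ) (v : ℕ) : sgn s v = ∏ w ∈ s, if w < v then (-1 : ℂ) else 1 := by
  rw [sgn, Finset.prod_ite]
  simp

theorem sgn_image (f : Equiv.Perm ℕ) (s : Finset ℕ) (v : ℕ) :
    sgn (s.image f) (f v) = ∏ w ∈ s, if f w < f v then (-1 : ℂ) else 1 := by
  rw [sgn_eq, Finset.prod_image]
  intro x _ y _ h
  exact f.injective h

theorem tt_self (f : ℕ → ℕ) (a : ℕ) : tt f a a = 1 := by simp [tt]

theorem eps_insert (f : ℕ → ℕ) (s : Finset ℕ) (v : ℕ) (hv : v ∉ s) :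
    eps f (insert v s) = (∏ w ∈ s, tt f v w * tt f w v) * eps f s := by
  rw [eps, Finset.prod_insert hv, Finset.prod_insert hv, tt_self, one_mul]
  have e : ∏ a ∈ s, ∏ b ∈ insert v s, tt f a b = (∏ a ∈ s, tt f a v) * eps f s := by
    rw [eps, ← Finset.prod_mul_distrib]
    refine Finset.prod_congr rfl fun a _ => ?_
    rw [Finset.prod_insert hv]
  rw [e, Finset.prod_mul_distrib]
  ring

theorem tt_mul (f : Equiv.Perm ℕ) (v w : ℕ) (h : w ≠ v) :
    (if w < v then (-1 : ℂ) else 1) * (tt f v w * tt f w v) = if f w < f v then -1 else 1 := by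
  have hf : f w ≠ f v := fun h' => h (f.injective h')
  unfold tt
  rcases lt_or_gt_of_ne h with h1 | h1 <;> rcases lt_or_gt_of_ne hf with h2 | h2
  · simp [h1, h2, h1.not_gt, h2.not_gt]
  · simp [h1, h2, h1.not_gt, h2.not_gt]
  · simp [h1, h2, h1.not_gt, h2.not_gt]
  · simp [h1, h2, h1.not_gt, h2.not_gt]

/-- the sign identity -/
theorem sgn_eps (f : Equiv.Perm ℕ) (s : Finset ℕ) (v : ℕ) (hv : v ∈ s) :
    sgn s v * eps f s = eps f (s.erase v) * sgn (s.image f) (f v) := by
  obtain ⟨s', hs', rfl⟩ : ∃ s', v ∉ s' ∧ s = insert v s' :=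
    ⟨s.erase v, Finset.notMem_erase v s, (Finset.insert_erase hv).symm⟩
  rw [Finset.erase_insert hs', sgn_image, sgn_eq, eps_insert f s' v hs',
    Finset.prod_insert hs', Finset.prod_insert hs']
  simp only [lt_self_iff_false, if_false, one_mul]
  rw [← mul_assoc, ← Finset.prod_mul_distrib, mul_comm]
  congr 1
  refine Finset.prod_congr rfl fun w hw => ?_
  exact tt_mul f v w (fun h => hs' (h ▸ hw))

theorem tt_one (f : ℕ → ℕ) {a b : ℕ} (h : f a < f b) : tt f a b = 1 := by
  unfold tt
  rw [if_neg]
  rintro ⟨_, h2⟩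
  omega

theorem tt_of (f : ℕ → ℕ) {a b : ℕ} (h : f a < f b) : tt f b a = if b < a then -1 else 1 := by
  unfold tt
  simp [h]

theorem eps_triple (f : ℕ → ℕ) {p q r : ℕ} (h1 : f p < f q) (h2 : f q < f r) :
    eps f {p, q, r} = (if q < p then -1 else 1) * (if r < p then -1 else 1)
      * (if r < q then -1 else 1) := by
  have n1 : p ≠ q := by rintro rfl; omega
  have n2 : q ≠ r := by rintro rfl; omega
  have n3 : p ≠ r := by rintro rfl; omega
  rw [eps_insert f {q, r} p (by simp [n1, n3]), eps_insert f {r} q (by simp [n2])]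
  have e : eps f {r} = 1 := by simp [eps, tt_self]
  rw [e, Finset.prod_pair n2, Finset.prod_singleton, tt_one f h1, tt_one f (h1.trans h2),
    tt_one f h2, tt_of f h1, tt_of f (h1.trans h2), tt_of f h2]
  ring

/-! ### areas -/

theorem tri_swap (A : ℕ → ℕ → G2) (a b c : ℕ) : tri A a c b = -tri A a b c := by
  unfold tri
  rw [cross_swap]

theorem tri_cyc {A : ℕ → ℕ → G2} {a b c : ℕ} (h1 : A b a * A a b = 1)
    (h2 : A b a * A a c = A b c) : tri A b c a = rho (A b a) * tri A a b c := by
  unfold tri
  rw [← cross_move, h1, h2, pos_one, cross_zero_left, cross_zero_right]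
  ring

/-- the least vertex for the new order -/
noncomputable def mn' (f : Equiv.Perm ℕ) (s : Finset ℕ) : ℕ := f.symm (mn (s.image f))

theorem mn'_mem (f : Equiv.Perm ℕ) {s : Finset ℕ} (h : s.Nonempty) : mn' f s ∈ s := by
  have := mn_mem (s := s.image f) (h.image f)
  obtain ⟨x, hx, hx2⟩ := Finset.mem_image.1 this
  rw [mn', ← hx2, Equiv.symm_apply_apply]
  exact hx

theorem exists_three {s : Finset ℕ} (h : s.card = 3) :
    ∃ a b c, a < b ∧ b < c ∧ s = {a, b, c} := by
  have n0 : s.Nonempty := Finset.card_pos.mp (by omega)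
  have c1 : (s.erase (mn s)).card = 2 := by rw [Finset.card_erase_of_mem (mn_mem n0), h]
  set s1 := s.erase (mn s) with hs1
  have n1 : s1.Nonempty := Finset.card_pos.mp (by omega)
  have c2 : (s1.erase (mn s1)).card = 1 := by rw [Finset.card_erase_of_mem (mn_mem n1), c1]
  obtain ⟨d, hd⟩ := Finset.card_eq_one.mp c2
  refine ⟨mn s, mn s1, d, mn_erase_gt (mn_mem n1),
    mn_erase_gt (s := s1) (by rw [hd]; simp), ?_⟩
  rw [← hd, Finset.insert_erase (mn_mem n1), hs1, Finset.insert_erase (mn_mem n0)]

section
variable {K : Finset (Finset ℕ)} {A : ℕ → ℕ → G2}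

/-- the cocycle with the new labels -/
def relab (f : Equiv.Perm ℕ) {G : Type*} (A : ℕ → ℕ → G) : ℕ → ℕ → G :=
  fun u v => A (f.symm u) (f.symm v)

theorem ar_relab (hK : IsComplex K) (hA : IsCocycle K A) (f : Equiv.Perm ℕ) {s : Finset ℕ}
    (hs : s ∈ K) :
    ar A s * (eps f s * rho (A (mn' f s) (mn s))) = ar (relab f A) (s.image f) := by
  have hcard : (s.image f).card = s.card := Finset.card_image_of_injective _ f.injective
  by_cases h3 : s.card = 3
  · obtain ⟨p', q', r', hpq, hqr, he⟩ := exists_three (s := s.image f) (by rw [hcard, h3])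
    obtain ⟨p, rfl⟩ := f.surjective p'
    obtain ⟨q, rfl⟩ := f.surjective q'
    obtain ⟨r, rfl⟩ := f.surjective r'
    have hse : s = {p, q, r} := by
      apply Finset.image_injective f.injective
      rw [he]
      simp [Finset.image_insert]
    have hm' : mn' f s = p := by
      rw [mn', he, mn_triple hpq (hpq.trans hqr), Equiv.symm_apply_apply]
    have hR : ar (relab f A) (s.image f) = tri A p q r := by
      rw [he, ar_triple hpq hqr]
      simp [tri, relab]
    rw [hR, hm']
    have hco : ∀ u v w : ℕ, u ∈ s → v ∈ s → w ∈ s → A u v * A v w = A u w :=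
      fun u v w hu hv hw => hA.of_subset hK hs hu hv hw
    have hp : p ∈ s := by rw [hse]; simp
    have hq : q ∈ s := by rw [hse]; simp
    have hr : r ∈ s := by rw [hse]; simp
    have h11 : ∀ u ∈ s, A u u = 1 := by
      intro u hu
      exact mul_eq_left.mp (hco u u u hu hu hu)
    have hinv : ∀ u v, u ∈ s → v ∈ s → A u v * A v u = 1 := by
      intro u v hu hv
      rw [hco u v u hu hv hu, h11 u hu]
    have hcyc : ∀ a b c, a ∈ s → b ∈ s → c ∈ s → tri A b c a = rho (A b a) * tri A a b c := by
      intro a b c ha hb hc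
      exact tri_cyc (hinv b a hb ha) (hco b a c hb ha hc)
    have n1 : p ≠ q := by rintro rfl; omega
    have n2 : q ≠ r := by rintro rfl; omega
    have n3 : p ≠ r := by rintro rfl; omega
    have heps := eps_triple f hpq hqr
    rw [← hse] at heps
    rw [heps]
    rcases lt_or_gt_of_ne n1 with h1 | h1 <;> rcases lt_or_gt_of_ne n2 with h2 | h2 <;>
      rcases lt_or_gt_of_ne n3 with h4 | h4
    · -- p < q < r
      have e1 : ar A s = tri A p q r := by rw [hse, ar_triple h1 h2]
      have e2 : mn s = p := by rw [hse, mn_triple h1 h4]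
      rw [e1, e2, h11 p hp, rho_one, if_neg (by omega), if_neg (by omega), if_neg (by omega)]
      ring
    · omega
    · -- p < r < q
      have es : s = {p, r, q} := by
        rw [hse]; ext x; simp only [Finset.mem_insert, Finset.mem_singleton]; tauto
      have e1 : ar A s = tri A p r q := by rw [es, ar_triple h4 h2]
      have e2 : mn s = p := by rw [hse, mn_triple h1 h4]
      rw [e1, e2, h11 p hp, rho_one, if_neg (by omega), if_neg (by omega), if_pos (by omega),
        tri_swap A p q r]
      ring
    · -- r < p < q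
      have es : s = {r, p, q} := by
        rw [hse]; ext x; simp only [Finset.mem_insert, Finset.mem_singleton]; tauto
      have e1 : ar A s = tri A r p q := by rw [es, ar_triple h4 h1]
      have e2 : mn s = r := by rw [es, mn_triple h4 h2]
      rw [e1, e2, if_neg (by omega), if_pos (by omega), if_pos (by omega), hcyc r p q hr hp hq]
      ring
    · -- q < p < r
      have es : s = {q, p, r} := by
        rw [hse]; ext x; simp only [Finset.mem_insert, Finset.mem_singleton]; tauto
      have e1 : ar A s = tri A q p r := by rw [es, ar_triple h1 h4]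
      have e2 : mn s = q := by rw [es, mn_triple h1 h2]
      rw [e1, e2, if_pos (by omega), if_neg (by omega), if_neg (by omega), tri_swap A p r q,
        hcyc q p r hq hp hr]
      ring
    · -- q < r < p
      have es : s = {q, r, p} := by
        rw [hse]; ext x; simp only [Finset.mem_insert, Finset.mem_singleton]; tauto
      have e1 : ar A s = tri A q r p := by rw [es, ar_triple h2 h4]
      have e2 : mn s = q := by rw [es, mn_triple h2 h1]
      rw [e1, e2, if_pos (by omega), if_pos (by omega), if_neg (by omega), hcyc r p q hr hp hq,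
        hcyc q r p hq hr hp, ← hco p r q hp hr hq, rho_mul]
      ring
    · omega
    · -- r < q < p
      have es : s = {r, q, p} := by
        rw [hse]; ext x; simp only [Finset.mem_insert, Finset.mem_singleton]; tauto
      have e1 : ar A s = tri A r q p := by rw [es, ar_triple h2 h1]
      have e2 : mn s = r := by rw [es, mn_triple h2 h4]
      rw [e1, e2, if_pos (by omega), if_pos (by omega), if_pos (by omega), hcyc r p q hr hp hq,
        tri_swap A r p q]
      ring
  · rw [ar, if_neg h3, ar, if_neg (by rw [hcard]; exact h3), zero_mul]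

/-- the diagonal base change -/
noncomputable def cc (f : Equiv.Perm ℕ) (A : ℕ → ℕ → G2) : Cell → ℂ
  | none => 1
  | some s => eps f s * rho (A (mn' f s) (mn s))

theorem norm_cc (f : Equiv.Perm ℕ) (A : ℕ → ℕ → G2) (x : Cell) : ‖cc f A x‖ = 1 := by
  cases x with
  | none => simp [cc]
  | some s => rw [cc, norm_mul, norm_eps, norm_rho, one_mul]

/-- the permutation of the cells -/
def cellEquiv (f : Equiv.Perm ℕ) : Cell ≃ Cell where
  toFun x := x.map (Finset.image f)
  invFun x := x.map (Finset.image f.symm)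
  left_inv x := by
    cases x with
    | none => rfl
    | some s => simp [Finset.image_image]
  right_inv x := by
    cases x with
    | none => rfl
    | some s => simp [Finset.image_image]

theorem Dg_relab (hK : IsComplex K) (hA : IsCocycle K A) (f : Equiv.Perm ℕ) (x y : Cell)
    (hx : x = none ∨ ∃ s ∈ K, x = some s) (hy : y = none ∨ ∃ s ∈ K, y = some s) :
    Dg A x y * cc f A y = cc f A x * Dg (relab f A) (cellEquiv f x) (cellEquiv f y) := by
  rcases hy with rfl | ⟨s, hs, rfl⟩
  · have : cellEquiv f none = none := rfl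
    rw [this, Dg_none_right, Dg_none_right, zero_mul, mul_zero]
  rcases hx with rfl | ⟨s', hs', rfl⟩
  · have e : Dg (relab f A) (cellEquiv f none) (cellEquiv f (some s))
        = ar (relab f A) (s.image f) := rfl
    rw [e, ← ar_relab hK hA f hs, Dg_none_some]
    simp [cc]
  · have e : Dg (relab f A) (cellEquiv f (some s')) (cellEquiv f (some s))
        = ∑ v ∈ s.image f, if (s.image f).erase v = s'.image f then
          sgn (s.image f) v * rho (relab f A (mn (s.image f)) (mn (s'.image f))) else 0 := rfl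
    have e2 : Dg (relab f A) (cellEquiv f (some s')) (cellEquiv f (some s))
        = ∑ v ∈ s, if s.erase v = s' then
          sgn (s.image f) (f v) * rho (A (mn' f s) (mn' f s')) else 0 := by
      rw [e, Finset.sum_image (fun x _ y _ h => f.injective h)]
      refine Finset.sum_congr rfl fun v _ => ?_
      have e3 : ((s.image f).erase (f v) = s'.image f) ↔ s.erase v = s' := by
        rw [← Finset.image_erase f.injective]
        exact ⟨fun h => Finset.image_injective f.injective h, fun h => by rw [h]⟩
      simp only [e3]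
      rfl
    rw [e2, Dg_some_some, Finset.sum_mul, Finset.mul_sum]
    refine Finset.sum_congr rfl fun v hv => ?_
    by_cases h : s.erase v = s'
    · rw [if_pos h, if_pos h]
      have hsn := (hK s hs).1
      have hs'n := (hK s' hs').1
      have hsub : s' ⊆ s := h ▸ Finset.erase_subset v s
      have m1 := mn_mem hsn
      have m2 := hsub (mn_mem hs'n)
      have m3 := mn'_mem f hsn
      have m4 := hsub (mn'_mem f hs'n)
      have c1 := hA.of_subset hK hs m3 m1 m2
      have c2 := hA.of_subset hK hs m3 m4 m2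
      have hsg := sgn_eps f s v hv
      rw [h] at hsg
      simp only [cc]
      have r1 : rho (A (mn' f s) (mn s)) * rho (A (mn s) (mn s')) = rho (A (mn' f s) (mn s')) := by
        rw [← rho_mul, c1]
      have r2 : rho (A (mn' f s) (mn' f s')) * rho (A (mn' f s') (mn s'))
          = rho (A (mn' f s) (mn s')) := by
        rw [← rho_mul, c2]
      calc sgn s v * rho (A (mn s) (mn s')) * (eps f s * rho (A (mn' f s) (mn s)))
          = (sgn s v * eps f s) * (rho (A (mn' f s) (mn s)) * rho (A (mn s) (mn s'))) := by ring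
        _ = (eps f s' * sgn (s.image f) (f v)) *
            (rho (A (mn' f s) (mn' f s')) * rho (A (mn' f s') (mn s'))) := by rw [hsg, r1, r2]
        _ = _ := by ring
    · rw [if_neg h, if_neg h, zero_mul, mul_zero]

theorem tors_relab (hK : IsComplex K) (hA : IsCocycle K A) (f : Equiv.Perm ℕ) (r : ℂ)
    (h : IsTorsOn (evenCells K) (oddCells K) (Dg A) r) :
    IsTorsOn (evenCells (K.image (Finset.image f))) (oddCells (K.image (Finset.image f)))
      (Dg (relab f A)) r := by
  have hcard : ∀ s : Finset ℕ, (s.image f).card = s.card :=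
    fun s => Finset.card_image_of_injective _ f.injective
  have hmem : ∀ s : Finset ℕ, s.image f ∈ K.image (Finset.image f) ↔ s ∈ K := by
    intro s
    rw [Finset.mem_image]
    constructor
    · rintro ⟨t, ht, hts⟩
      rwa [← Finset.image_injective f.injective hts]
    · intro hs
      exact ⟨s, hs, rfl⟩
  have ha : ∀ x, x ∈ evenCells K ↔ cellEquiv f x ∈ evenCells (K.image (Finset.image f)) := by
    intro x
    cases x with
    | none => simp [mem_evenCells, cellEquiv]
    | some s =>
      have e : cellEquiv f (some s) = some (s.image f) := rfl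
      rw [e, mem_evenCells, mem_evenCells]
      constructor
      · rintro ⟨t, ht, ht1, ht2⟩
        obtain rfl := Option.some_injective _ ht2
        exact ⟨s.image f, (hmem s).2 ht, by rw [hcard]; exact ht1, rfl⟩
      · rintro ⟨t, ht, ht1, ht2⟩
        obtain rfl := Option.some_injective _ ht2
        exact ⟨s, (hmem s).1 ht, by rw [hcard] at ht1; exact ht1, rfl⟩
  have hb : ∀ x, x ∈ oddCells K ↔ cellEquiv f x ∈ oddCells (K.image (Finset.image f)) := by
    intro x
    cases x with
    | none => simp [mem_oddCells, cellEquiv]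
    | some s =>
      have e : cellEquiv f (some s) = some (s.image f) := rfl
      rw [e, mem_oddCells, mem_oddCells]
      constructor
      · rintro (h | ⟨t, ht, ht1, ht2⟩)
        · exact absurd h (by simp)
        · obtain rfl := Option.some_injective _ ht2
          exact Or.inr ⟨s.image f, (hmem s).2 ht, by rw [hcard]; exact ht1, rfl⟩
      · rintro (h | ⟨t, ht, ht1, ht2⟩)
        · exact absurd h (by simp)
        · obtain rfl := Option.some_injective _ ht2
          exact Or.inr ⟨s, (hmem s).1 ht, by rw [hcard] at ht1; exact ht1, rfl⟩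
  rw [← isTorsOn_equiv (cellEquiv f) ha hb]
  have hE : ∀ x ∈ evenCells K, x = none ∨ ∃ s ∈ K, x = some s := by
    intro x hx
    obtain ⟨s, hs, -, h⟩ := mem_evenCells.1 hx
    exact Or.inr ⟨s, hs, h⟩
  have hO : ∀ x ∈ oddCells K, x = none ∨ ∃ s ∈ K, x = some s := by
    intro x hx
    rcases mem_oddCells.1 hx with h | ⟨s, hs, -, h⟩
    · exact Or.inl h
    · exact Or.inr ⟨s, hs, h⟩
  exact (isTorsOn_diag (cc f A) (fun x _ => norm_cc f A x) (fun x _ => norm_cc f A x)
    (fun x hx y hy => Dg_relab hK hA f x y (hE x hx) (hO y hy))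
    (fun x hx y hy => Dg_relab hK hA f x y (hO x hx) (hE y hy))).1 h

end

theorem mem_relab (K : Finset (Finset ℕ)) (f : Equiv.Perm ℕ) (s : Finset ℕ) :
    s ∈ K.image (Finset.image f) ↔ s.image f.symm ∈ K := by
  rw [Finset.mem_image]
  constructor
  · rintro ⟨t, ht, rfl⟩
    simpa [Finset.image_image] using ht
  · intro hs
    exact ⟨_, hs, by simp [Finset.image_image]⟩

theorem hol_relab {G : Type*} [Group G] {K : Finset (Finset ℕ)} (f : Equiv.Perm ℕ)
    {A : ℕ → ℕ → G} {u v : ℕ} {g : G} (h : Hol K A u v g) :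
    Hol (K.image (Finset.image f)) (relab f A) (f u) (f v) g := by
  induction h with
  | refl hw =>
    refine Hol.refl _ ?_
    rw [mem_relab]
    simpa using hw
  | @step b c g h1 h2 ih =>
    have e : A b c = relab f A (f b) (f c) := by simp [relab]
    rw [e]
    refine Hol.step ih ?_
    rw [mem_relab]
    simpa [Finset.image_insert] using h2

theorem tset_relab (K : Finset (Finset ℕ)) (hK : IsComplex K) (f : Equiv.Perm ℕ) :
    TSet K ⊆ TSet (K.image (Finset.image f)) := by
  rintro r ⟨A, hA, ⟨v, hv, hfull⟩, hr⟩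
  have hmem := mem_relab K f
  have hco : IsCocycle (K.image (Finset.image f)) (relab f A) := by
    intro u v w huvw
    rw [hmem] at huvw
    apply hA
    simpa [Finset.image_insert] using huvw
  refine ⟨relab f A, hco, ⟨f v, ?_, ?_⟩, ?_⟩
  · rw [hmem]
    simpa using hv
  · intro p
    obtain ⟨g, hg, hgp⟩ := hfull p
    exact ⟨g, hol_relab f hg, hgp⟩
  · have hA2 : IsCocycle K (fun u v => toG2 (A u v)) := by
      intro u v w huvw
      change toG2 (A u v) * toG2 (A v w) = toG2 (A u w)
      rw [← map_mul, hA u v w huvw]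
    exact tors_relab hK hA2 f r hr

theorem nb2 : RelabelStatement := by
  rintro K L hK hL ⟨f, rfl⟩
  apply Set.Subset.antisymm (tset_relab K hK f)
  have h := tset_relab _ hL f.symm
  have e : (K.image (Finset.image f)).image (Finset.image f.symm) = K := by
    rw [Finset.image_image]
    have : (Finset.image f.symm ∘ Finset.image f : Finset ℕ → Finset ℕ) = id := by
      funext s
      simp [Finset.image_image]
    rw [this, Finset.image_id]
  rw [e] at h
  exact h

end Pool.Agent.Lib.MP_50ef00_gt.H1
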